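import Pool.Agent.Work.MP_8e4d29_nt.Cnt2

/-!
# There are infinitely many primes `p` with `s_2(p) = s_3(p)`

Question Q1 of MP_8e4d29_nt asks whether the set of primes whose binary and ternary digit sums are
equal is infinite. It is, and the number of such primes up to `X` is at least `X ^ (3 / 4)` for all
large `X`.
-/

set_option autoImplicit false

namespace Pool.Agent.Results.MP_8e4d29_nt.FullAnswer

/-- `a` is a base-`q` expansion of `n`: a sequence `a_0, a_1, ...` of digits, all but finitely many
of them equal to `0`, with `a_i` in `{0, 1, ..., q - 1}` for every `i`, and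
`n = ∑_{i ≥ 0} a_i q ^ i`. -/
def IsExpansion (q n : ℕ) (a : ℕ →₀ ℕ) : Prop :=
  (∀ i, a i ≤ q - 1) ∧ n = a.sum (fun i d => d * q ^ i)

/-- `s_q(n)`, the sum of the base-`q` digits of `n` (Mathlib's list of digits). The first part of
`result` proves that this is `∑_{i ≥ 0} a_i` for the unique base-`q` expansion `a` of `n`. -/
def digitSum (q n : ℕ) : ℕ := (Nat.digits q n).sum

/-- finite sums of digits -/
theorem aux (q : ℕ) (hq : 2 ≤ q) : ∀ (N : ℕ) (a : ℕ → ℕ), (∀ i, a i < q) →
    (∀ i, i < N → (∑ j ∈ Finset.range N, a j * q ^ j) / q ^ i % q = a i) ∧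
    (Nat.digits q (∑ j ∈ Finset.range N, a j * q ^ j)).sum = ∑ j ∈ Finset.range N, a j := by
  intro N
  induction N with
  | zero => intro a _; simp
  | succ N ih =>
    intro a ha
    obtain ⟨h1, h2⟩ := ih (fun i => a (i + 1)) (fun i => ha (i + 1))
    have e : ∑ j ∈ Finset.range (N + 1), a j * q ^ j =
        a 0 + q * ∑ j ∈ Finset.range N, a (j + 1) * q ^ j := by
      rw [Finset.sum_range_succ', Finset.mul_sum, pow_zero, mul_one, add_comm]
      congr 1
      apply Finset.sum_congr rfl
      intro j _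
      rw [pow_succ]
      ring
    have hq0 : 0 < q := by omega
    refine ⟨fun i hi => ?_, ?_⟩
    · rw [e]
      rcases i with _ | i
      · rw [pow_zero, Nat.div_one, Nat.add_mul_mod_self_left, Nat.mod_eq_of_lt (ha 0)]
      · rw [pow_succ', ← Nat.div_div_eq_div_mul, Nat.add_mul_div_left _ _ hq0,
          Nat.div_eq_of_lt (ha 0), zero_add]
        exact h1 i (by omega)
    · rw [e, Finset.sum_range_succ', add_comm (∑ k ∈ Finset.range N, a (k + 1)), ← h2]
      rcases Nat.eq_zero_or_pos (a 0 + q * ∑ j ∈ Finset.range N, a (j + 1) * q ^ j) with h0 | hpos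
      · have h3 : a 0 = 0 := by omega
        have h4 : q * ∑ j ∈ Finset.range N, a (j + 1) * q ^ j = 0 := by omega
        have h5 : ∑ j ∈ Finset.range N, a (j + 1) * q ^ j = 0 := by
          rcases Nat.mul_eq_zero.mp h4 with h | h
          · omega
          · exact h
        rw [h5, h3]
        simp
      · rw [Nat.digits_eq_cons_digits_div (by omega : 1 < q) (by omega), List.sum_cons,
          Nat.add_mul_mod_self_left, Nat.mod_eq_of_lt (ha 0), Nat.add_mul_div_left _ _ hq0,
          Nat.div_eq_of_lt (ha 0), zero_add]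

/-- the finite sum of a base-`q` expansion below `q ^ N` -/
theorem aux2 (q n : ℕ) : ∀ N : ℕ,
    ∑ j ∈ Finset.range N, n / q ^ j % q * q ^ j = n % q ^ N := by
  intro N
  induction N with
  | zero => simp [Nat.mod_one]
  | succ N ih => rw [Finset.sum_range_succ, ih, Nat.mod_pow_succ]; ring

/-- the digits of an expansion -/
theorem digits_unique (q n : ℕ) (hq : 2 ≤ q) (a : ℕ →₀ ℕ) (ha : IsExpansion q n a) :
    (∀ i, a i = n / q ^ i % q) ∧ (a.sum fun _ d => d) = digitSum q n := by
  obtain ⟨h1, h2⟩ := ha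
  have h1' : ∀ i, a i < q := fun i => by have := h1 i; omega
  have key : ∀ N, a.support ⊆ Finset.range N →
      n = ∑ j ∈ Finset.range N, a j * q ^ j ∧
      (a.sum fun _ d => d) = ∑ j ∈ Finset.range N, a j := by
    intro N hN
    constructor
    · rw [h2]
      exact Finsupp.sum_of_support_subset a hN _ (fun i _ => by simp)
    · exact Finsupp.sum_of_support_subset a hN _ (fun i _ => rfl)
  obtain ⟨N, hN⟩ : ∃ N, a.support ⊆ Finset.range N := by
    refine ⟨a.support.sup id + 1, fun i hi => ?_⟩
    rw [Finset.mem_range]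
    have : id i ≤ a.support.sup id := Finset.le_sup hi
    simp only [id] at this
    omega
  constructor
  · intro i
    have hN' : a.support ⊆ Finset.range (max N (i + 1)) :=
      hN.trans (Finset.range_mono (le_max_left _ _))
    obtain ⟨e1, -⟩ := key _ hN'
    have := (aux q hq (max N (i + 1)) a h1').1 i (lt_of_lt_of_le (by omega) (le_max_right _ _))
    rw [← e1] at this
    exact this.symm
  · obtain ⟨e1, e2⟩ := key _ hN
    rw [e2, digitSum]
    conv_rhs => rw [e1]
    exact (aux q hq N a h1').2.symm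

/-- existence of the expansion -/
theorem exists_expansion (q n : ℕ) (hq : 2 ≤ q) : ∃ a : ℕ →₀ ℕ, IsExpansion q n a := by
  have hlt : ∀ i, n + 1 ≤ i → n / q ^ i % q = 0 := by
    intro i hi
    have h1 : n < q ^ i := by
      have h2 : i < q ^ i := Nat.lt_pow_self (by omega)
      omega
    rw [Nat.div_eq_of_lt h1, Nat.zero_mod]
  refine ⟨Finsupp.onFinset (Finset.range (n + 1)) (fun i => n / q ^ i % q) (fun i hi => ?_),
    fun i => ?_, ?_⟩
  · rw [Finset.mem_range]
    by_contra hcon
    exact hi (hlt i (by omega))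
  · rw [Finsupp.onFinset_apply]
    have := Nat.mod_lt (n / q ^ i) (show 0 < q by omega)
    omega
  · rw [Finsupp.sum_of_support_subset _ Finsupp.support_onFinset_subset _
      (fun i _ => by simp)]
    simp only [Finsupp.onFinset_apply]
    rw [aux2, Nat.mod_eq_of_lt]
    have h2 : n + 1 < q ^ (n + 1) := Nat.lt_pow_self (by omega)
    omega

/-- **Full answer to Q1: there are infinitely many primes `p` with `s_2(p) = s_3(p)`.**

* For all `q ≥ 2` and all `n`, the number `n` has exactly one base-`q` expansion `a`, and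
  `digitSum q n = ∑_{i ≥ 0} a_i`; so `digitSum q n` is the `s_q(n)` of the problem.
* The set of primes `p` with `s_2(p) = s_3(p)` is infinite.
* For all large `X`, at least `X ^ (3 / 4)` primes `p ≤ X` satisfy `s_2(p) = s_3(p)`. -/
theorem result :
    (∀ q n : ℕ, 2 ≤ q → ∃ a : ℕ →₀ ℕ, IsExpansion q n a ∧ (∀ b, IsExpansion q n b → b = a) ∧
      digitSum q n = a.sum (fun _ d => d)) ∧
    Set.Infinite {p : ℕ | p.Prime ∧ digitSum 2 p = digitSum 3 p} ∧
    ∃ X0 : ℕ, ∀ X : ℕ, X0 ≤ X → (X : ℝ) ^ ((3 : ℝ) / 4) ≤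
      (((Finset.Icc 1 X).filter (fun p => p.Prime ∧ digitSum 2 p = digitSum 3 p)).card : ℝ) := by
  refine ⟨fun q n hq => ?_, Pool.Agent.Work.MP_8e4d29_nt.main,
    Pool.Agent.Work.MP_8e4d29_nt.count_lower⟩
  obtain ⟨a, ha⟩ := exists_expansion q n hq
  refine ⟨a, ha, fun b hb => ?_, (digits_unique q n hq a ha).2.symm⟩
  ext i
  rw [(digits_unique q n hq a ha).1 i, (digits_unique q n hq b hb).1 i]

end Pool.Agent.Results.MP_8e4d29_nt.FullAnswer
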